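import Mathlib
import Pool.Agent.H27.CALM.All

/-!
# MP_6375c7_an: the unitization of the compact operators on C(K) is a Calkin algebra

Let `𝕜` be the real or the complex field and let `K` be a countable compact metrizable space. There
is a Banach space `X` over `𝕜` whose Calkin algebra (bounded operators modulo compact operators) is
isomorphic as a Banach algebra to the unitization of the algebra of compact operators on `C(K)`.

The isomorphism is given as a surjective algebra homomorphism `Ψ` from the bounded operators on `X`
onto the unitization, whose kernel is exactly the ideal of compact operators, together with a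
constant `C` which bounds the norm of `Ψ T` by the norm of `T`, and the distance of `T` to the
compact operators by the norm of `Ψ T`.

Outline of the proof (Pool.Agent.H27.CAL and the modules of Pool.Agent.H27.CALM.All). `K` carries a
tree order with clopen upper sets, without infinite increasing sequences. Let `Y` be a space of
Argyros-Haydon type (every operator is scalar plus compact) with a separable dual. `X` is a
Bourgain-Delbaen space with a `Y`-valued coordinate for every point of the tree and scalar
coordinates of free and of coded weights, where the admissible families of positions of weight `j`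
are defined by the nonexistence of convex means on which all functionals built from smaller weights
and from branches of the tree are small (so no Schreier families are used). Then every operator on
`X` is a scalar plus a limit of finite matrices indexed by the tree, modulo compact operators, and
the norm of a matrix modulo compact operators is equivalent to its norm as an operator on `C(K)`.
-/

set_option autoImplicit false

namespace Pool.Agent.Results.MP_6375c7_an.UnitizedCompacts

/-- The Banach algebra `L`, its ideal `I`, the Banach algebra `M` and its closed subalgebra `J` (with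
or without unit) are given. The unitization of `J` is the algebra of all pairs `(c, V)`, `c` a
scalar, `V ∈ J`, with the product `(c, V) (d, W) = (c d, c W + d V + V W)` and the norm
`‖c‖ + ‖V‖`. `InducesIso I J sc op` says that `T + I ↦ (sc T, op T)` is an isomorphism of Banach
algebras from the quotient algebra `L / I` onto the unitization of `J`: the map
`T ↦ (sc T, op T)` is linear (`add`, `smul`), multiplicative (`mul`, `one`), maps `L` onto the
unitization (`mem`, `surj`) and its kernel is `I` (`ker`); it is bounded, and the distance of `T` to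
`I` is bounded by a multiple of the norm of `(sc T, op T)` (`bdd`). -/
structure InducesIso {𝕜 L M : Type} [RCLike 𝕜] [NormedRing L] [NormedAlgebra 𝕜 L] [NormedRing M]
    [NormedAlgebra 𝕜 M] (I : Set L) (J : Set M) (sc : L → 𝕜) (op : L → M) : Prop where
  add : ∀ S T, sc (S + T) = sc S + sc T ∧ op (S + T) = op S + op T
  smul : ∀ (c : 𝕜) (T : L), sc (c • T) = c * sc T ∧ op (c • T) = c • op T
  mul : ∀ S T, sc (S * T) = sc S * sc T ∧ op (S * T) = sc S • op T + sc T • op S + op S * op T
  one : sc 1 = 1 ∧ op 1 = 0
  mem : ∀ T, op T ∈ J
  surj : ∀ c, ∀ V ∈ J, ∃ T, sc T = c ∧ op T = V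
  ker : ∀ T, T ∈ I ↔ sc T = 0 ∧ op T = 0
  bdd : ∃ C : ℝ, (∀ T, ‖sc T‖ + ‖op T‖ ≤ C * ‖T‖) ∧
    ∀ T, ∃ T₀ ∈ I, ‖T - T₀‖ ≤ C * (‖sc T‖ + ‖op T‖)

/-- The set of compact operators on `X`. -/
def compactOperators (𝕜 X : Type) [RCLike 𝕜] [NormedAddCommGroup X] [NormedSpace 𝕜 X] :
    Set (X →L[𝕜] X) := {T | IsCompactOperator T}

/-- The Calkin algebra of `X` (bounded operators modulo compact operators) is isomorphic as a Banach
algebra to the unitization of the algebra of compact operators on `Z`. -/
def CalkinIsUnitizedCompacts (𝕜 X Z : Type) [RCLike 𝕜] [NormedAddCommGroup X] [NormedSpace 𝕜 X]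
    [NormedAddCommGroup Z] [NormedSpace 𝕜 Z] : Prop :=
  ∃ (sc : (X →L[𝕜] X) → 𝕜) (op : (X →L[𝕜] X) → (Z →L[𝕜] Z)),
    InducesIso (compactOperators 𝕜 X) (compactOperators 𝕜 Z) sc op

/-- Q1 of MP_6375c7_an has a positive answer: for every countable compact metrizable space `K` the
unitization of the algebra of compact operators on `C(K, 𝕜)` is isomorphic as a Banach algebra to
the Calkin algebra of some Banach space `X` over `𝕜` (`𝕜` is the real or the complex field). -/
theorem result (𝕜 : Type) [RCLike 𝕜] (K : Type) [TopologicalSpace K] [CompactSpace K]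
    [TopologicalSpace.MetrizableSpace K] [Countable K] :
    ∃ (X : Type) (_ : NormedAddCommGroup X) (_ : NormedSpace 𝕜 X),
      CompleteSpace X ∧ CalkinIsUnitizedCompacts 𝕜 X C(K, 𝕜) := by
  obtain ⟨X, h1, h2, h3, Ψ, C, h4, h5, h6, h7⟩ := CAL.cal_fin 𝕜 K
  refine ⟨X, h1, h2, h3, fun T => (Ψ T).fst, fun T => ((Ψ T).snd : C(K, 𝕜) →L[𝕜] C(K, 𝕜)),
    ?_⟩
  refine ⟨?_, ?_, ?_, ?_, ?_, ?_, ?_, ⟨C, h6, h7⟩⟩
  · intro S T
    rw [map_add]
    exact ⟨rfl, rfl⟩
  · intro c T
    rw [map_smul]
    exact ⟨rfl, rfl⟩
  · intro S T
    rw [map_mul]
    refine ⟨rfl, ?_⟩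
    rw [Unitization.snd_mul]
    rfl
  · have h : Ψ 1 = 1 := Ψ.map_one'
    rw [h]
    exact ⟨rfl, rfl⟩
  · intro T
    exact (Ψ T).snd.2
  · intro c V hV
    obtain ⟨T, hT⟩ := h4 (Unitization.inl c + ((⟨V, hV⟩ : CAL.compOp 𝕜 C(K, 𝕜)) :
      Unitization 𝕜 (CAL.compOp 𝕜 C(K, 𝕜))))
    refine ⟨T, ?_, ?_⟩
    · rw [hT]
      simp
    · rw [hT]
      simp
  · intro T
    show IsCompactOperator T ↔ _
    rw [← h5 T]
    constructor
    · intro h
      rw [h]
      exact ⟨rfl, rfl⟩
    · rintro ⟨h8, h9⟩
      refine Unitization.ext h8 (Subtype.ext h9)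

end Pool.Agent.Results.MP_6375c7_an.UnitizedCompacts
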